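import Pool.Agent.Lib.MP_92e372_an.Gen.ThreeCircles

namespace Pool.Agent.Lib.MP_92e372_an.Gen

open Filter Topology Metric

variable {A B : Type*} [NormedRing A] [NormedAlgebra ℂ A] [CompleteSpace A] [CStarAlgebra B]

omit [CompleteSpace A] in
theorem spectrum_subset (φ : A →ₗ[ℂ] B) (h1 : φ 1 = 1) (hu : ∀ a, IsUnit a → IsUnit (φ a))
    (a : A) : spectrum ℂ (φ a) ⊆ spectrum ℂ a := by
  intro μ hμ
  rw [spectrum.mem_iff] at hμ ⊢
  intro h
  apply hμ
  have := hu _ h
  rwa [map_sub, Algebra.algebraMap_eq_smul_one, map_smul, h1,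
    ← Algebra.algebraMap_eq_smul_one] at this

theorem norm_le_of_mem_spectrum (a : A) {μ : ℂ} (h : μ ∈ spectrum ℂ a) : ‖μ‖ ≤ ‖a‖ := by
  by_contra hlt
  rw [not_le] at hlt
  have hμ : μ ≠ 0 := norm_pos_iff.1 ((norm_nonneg _).trans_lt hlt)
  have h1 : ‖μ⁻¹ • a‖ < 1 := by
    rw [norm_smul, norm_inv, inv_mul_lt_one₀ (norm_pos_iff.2 hμ)]
    exact hlt
  apply spectrum.mem_iff.1 h
  have e : algebraMap ℂ A μ - a = algebraMap ℂ A μ * (1 - μ⁻¹ • a) := by
    rw [mul_sub, mul_one, ← Algebra.smul_def, smul_smul, mul_inv_cancel₀ hμ, one_smul]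
  rw [e]
  exact ((IsUnit.mk0 μ hμ).map _).mul (Units.oneSub _ h1).isUnit

/-- The norm of `h + i t` for a selfadjoint `h`. -/
theorem norm_add_I_sq_le [Nontrivial B] {h : B} (hh : IsSelfAdjoint h) (t : ℝ) :
    ‖h + algebraMap ℂ B (Complex.I * t)‖ ^ 2 ≤ ‖h‖ ^ 2 + t ^ 2 := by
  rw [sq, ← CStarRing.norm_star_mul_self]
  have e : star (h + algebraMap ℂ B (Complex.I * t)) * (h + algebraMap ℂ B (Complex.I * t))
      = h * h + algebraMap ℂ B ((t : ℂ) ^ 2) := by
    have e1 : (starRingEnd ℂ) (Complex.I * t) = -(Complex.I * t) := by simp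
    have e2 : (-(Complex.I * t)) * (Complex.I * t) = (t : ℂ) ^ 2 := by
      linear_combination (-(t : ℂ) ^ 2) * Complex.I_sq
    simp only [Algebra.algebraMap_eq_smul_one, star_add, star_smul, star_one, hh.star_eq,
      Complex.star_def, e1, add_mul, mul_add, smul_mul_assoc, mul_smul_comm, one_mul, mul_one,
      smul_add, smul_smul]
    rw [← e2]
    module
  rw [e]
  refine (norm_add_le _ _).trans (add_le_add ?_ ?_)
  · rw [sq]; exact norm_mul_le _ _
  · rw [norm_algebraMap']; simp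

theorem le_zero_of_forall_sq {a c d : ℝ} (h : ∀ R : ℝ, 0 < R → a + R ≤ √(c ^ 2 + R ^ 2) + d) :
    a ≤ d := by
  by_contra hlt
  rw [not_le] at hlt
  have hp : 0 < a - d := by linarith
  have h1 := h (c ^ 2 / (a - d) + 1) (by positivity)
  set R := c ^ 2 / (a - d) + 1 with hR
  have hR0 : 0 < R := by positivity
  have h2 : a - d + R ≤ √(c ^ 2 + R ^ 2) := by linarith
  have h3 := Real.le_sqrt (by positivity) (by positivity) |>.1 h2
  have h4 : (a - d) * R = c ^ 2 + (a - d) := by rw [hR]; field_simp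
  nlinarith [sq_nonneg c]

/-- An element `b` with `ρ(x) ≤ ‖x - b‖` for all `x` has zero real part. -/
theorem realPart_eq_zero [Nontrivial B] {b : B}
    (h : ∀ x : B, ∀ μ ∈ spectrum ℂ x, ‖μ‖ ≤ ‖x - b‖) : (realPart b : B) = 0 := by
  set u : B := (realPart b : selfAdjoint B).1 with hu
  set v : B := (imaginaryPart b : selfAdjoint B).1 with hv
  have hus : IsSelfAdjoint u := (realPart b).2
  have hvs : IsSelfAdjoint v := (imaginaryPart b).2
  have hb : b = u + Complex.I • v := (realPart_add_I_smul_imaginaryPart b).symm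
  obtain ⟨μ, hμ, hμ'⟩ := spectrum.exists_nnnorm_eq_spectralRadius u
  rw [hus.spectralRadius_eq_nnnorm] at hμ'
  have hμn : ‖μ‖ = ‖u‖ := by
    have : ‖μ‖₊ = ‖u‖₊ := by exact_mod_cast hμ'
    exact congrArg NNReal.toReal this
  have hre : μ = (μ.re : ℂ) := hus.mem_spectrum_eq_re hμ
  have key : ∀ t : ℝ, |μ.re + t| ≤ √(‖v‖ ^ 2 + t ^ 2) := by
    intro t
    have h1 : μ + t ∈ spectrum ℂ (u + algebraMap ℂ B t) := by
      rw [← spectrum.add_singleton_eq]
      exact Set.add_mem_add hμ rfl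
    have h2 := h _ _ h1
    have h3 : u + algebraMap ℂ B t - b = (-Complex.I) • (v + algebraMap ℂ B (Complex.I * t)) := by
      rw [hb]
      simp only [Algebra.algebraMap_eq_smul_one, smul_add, smul_smul]
      have : -Complex.I * (Complex.I * t) = t := by
        linear_combination (-(t : ℂ)) * Complex.I_sq
      rw [this]
      module
    rw [h3, norm_smul, norm_neg, Complex.norm_I, one_mul, hre, ← Complex.ofReal_add,
      Complex.norm_real, Real.norm_eq_abs] at h2
    exact h2.trans (Real.le_sqrt_of_sq_le (norm_add_I_sq_le hvs t))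
  have h1 : μ.re ≤ 0 := le_zero_of_forall_sq (c := ‖v‖) fun R _ => by
    simpa using (le_abs_self _).trans (key R)
  have h2 : -μ.re ≤ 0 := le_zero_of_forall_sq (c := ‖v‖) fun R _ => by
    have := (neg_le_abs _).trans (key (-R))
    rw [neg_sq] at this
    linarith
  have h3 : μ.re = 0 := by linarith
  rw [← norm_eq_zero, ← hμn, hre, h3]
  simp

theorem sep_bound [Nontrivial B] (φ : A →ₗ[ℂ] B) (hs : Function.Surjective φ) (h1 : φ 1 = 1)
    (hu : ∀ a, IsUnit a → IsUnit (φ a)) {u : ℕ → A} {b : B} (hu0 : Tendsto u atTop (𝓝 0))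
    (hub : Tendsto (fun n => φ (u n)) atTop (𝓝 b)) (x : B) (μ : ℂ) (hμ : μ ∈ spectrum ℂ x) :
    ‖μ‖ ≤ ‖x - b‖ := by
  obtain ⟨a, rfl⟩ := hs x
  refine norm_le_of_families (B := B) (z0 := 1) one_ne_zero (norm_nonneg _) (M := ‖a‖ + 1)
    (by positivity) fun ε hε => ?_
  have hb1 : 0 < ‖b‖ + 1 := by positivity
  refine ⟨min 1 (ε / 2 / (‖b‖ + 1)), lt_min one_pos (by positivity), by simp, fun R hR => ?_⟩
  have hR1 : 1 ≤ R := by simpa using hR
  have e1 : ∀ᶠ n in atTop, ‖u n‖ < 1 / (R + 1) := by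
    have := hu0.norm
    rw [norm_zero] at this
    exact this.eventually (gt_mem_nhds (by positivity))
  have e2 : ∀ᶠ n in atTop, ‖φ (u n) - b‖ < min 1 (ε / 2) := by
    have := tendsto_iff_norm_sub_tendsto_zero.1 hub
    exact this.eventually (gt_mem_nhds (lt_min one_pos (by positivity)))
  obtain ⟨n, hn1, hn2⟩ := (e1.and e2).exists
  have hn3 : ‖φ (u n) - b‖ < 1 := hn2.trans_le (min_le_left _ _)
  have hn4 : ‖φ (u n) - b‖ < ε / 2 := hn2.trans_le (min_le_right _ _)
  refine ⟨fun z => z • φ (u n) + (φ a - φ (u n)), by fun_prop, by simpa using hμ,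
    fun z hz => ?_, fun z hz ν hν => ?_⟩
  · have h2 : ‖φ (u n)‖ ≤ ‖b‖ + 1 := by linarith [norm_sub_norm_le (φ (u n)) b]
    have h3 : ‖z‖ * ‖φ (u n)‖ ≤ ε / 2 := by
      calc ‖z‖ * ‖φ (u n)‖ ≤ (ε / 2 / (‖b‖ + 1)) * (‖b‖ + 1) := by
            gcongr
            rw [hz]; exact min_le_right _ _
        _ = ε / 2 := by field_simp
    have h4 : ‖φ a - φ (u n)‖ ≤ ‖φ a - b‖ + ‖φ (u n) - b‖ := by
      have : φ a - φ (u n) = (φ a - b) - (φ (u n) - b) := by abel
      rw [this]; exact norm_sub_le _ _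
    calc _ ≤ ‖z • φ (u n)‖ + ‖φ a - φ (u n)‖ := norm_add_le _ _
      _ ≤ _ := by rw [norm_smul]; linarith
  · have e : z • φ (u n) + (φ a - φ (u n)) = φ (a + (z - 1) • u n) := by
      simp only [map_add, map_smul]; module
    replace hν : ν ∈ spectrum ℂ (φ (a + (z - 1) • u n)) := e ▸ hν
    have h2 := norm_le_of_mem_spectrum _ (spectrum_subset φ h1 hu _ hν)
    have h3 : ‖(z - 1) • u n‖ < 1 := by
      rw [norm_smul]
      have h4 : ‖z - 1‖ ≤ R + 1 := by
        refine (norm_sub_le _ _).trans ?_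
        rw [hz, norm_one]
      calc ‖z - 1‖ * ‖u n‖ ≤ (R + 1) * ‖u n‖ := by gcongr
        _ < (R + 1) * (1 / (R + 1)) := by gcongr
        _ = 1 := by field_simp
    linarith [norm_add_le a ((z - 1) • u n)]

/-- Automatic continuity. -/
theorem continuous_of_preserves [Nontrivial B] (φ : A →ₗ[ℂ] B) (hs : Function.Surjective φ)
    (h1 : φ 1 = 1) (hu : ∀ a, IsUnit a → IsUnit (φ a)) : Continuous φ := by
  refine φ.continuous_of_seq_closed_graph fun u x y hux huy => ?_
  have h2 : Tendsto (fun n => u n - x) atTop (𝓝 0) := tendsto_sub_nhds_zero_iff.2 hux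
  have h3 : Tendsto (fun n => φ (u n - x)) atTop (𝓝 (y - φ x)) := by
    simp only [map_sub]
    exact huy.sub_const _
  have h4 : Tendsto (fun n => (-Complex.I) • (u n - x)) atTop (𝓝 0) := by
    simpa using h2.const_smul (-Complex.I)
  have h5 : Tendsto (fun n => φ ((-Complex.I) • (u n - x))) atTop
      (𝓝 ((-Complex.I) • (y - φ x))) := by
    simp only [map_smul]
    exact h3.const_smul _
  have r1 := realPart_eq_zero (sep_bound φ hs h1 hu h2 h3)
  have r2 := realPart_eq_zero (sep_bound φ hs h1 hu h4 h5)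
  have r3 : (imaginaryPart (y - φ x) : B) = 0 := by
    rw [neg_smul, map_neg, realPart_I_smul] at r2
    simpa using r2
  rw [← sub_eq_zero, ← realPart_add_I_smul_imaginaryPart (y - φ x), r1, r3]
  simp

end Pool.Agent.Lib.MP_92e372_an.Gen
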