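import Pool.Agent.Lib.MP_92e372_an.Plateau

namespace Pool.Agent.Lib.MP_92e372_an.Gen

open Finset

variable {B : Type*} [CStarAlgebra B] [Nontrivial B]

/-- The defect of the Jordan derivation identity. -/
noncomputable def defect (D : B →L[ℂ] B) (b : B) : B := D (b * b) - b * D b - D b * b

omit [Nontrivial B] in
theorem two_point {D : B →L[ℂ] B} (h1 : D 1 = 0)
    (hz : ∀ b u v : B, IsSelfAdjoint b → u * b = 0 → b * v = 0 → u * D b * v = 0)
    {b u v : B} (hb : IsSelfAdjoint b) {c d : ℝ} (hu : u * b = (c : ℂ) • u)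
    (hv : b * v = (d : ℂ) • v) : u * defect D b * v = 0 := by
  have key := hz (b * b - ((c : ℂ) + d) • b + ((c : ℂ) * d) • (1 : B)) u v ?_ ?_ ?_
  · simp only [map_add, map_sub, map_smul, h1, smul_zero, add_zero] at key
    have e1 : u * (b * D b) * v = (c : ℂ) • (u * D b * v) := by
      rw [← mul_assoc, hu, smul_mul_assoc, smul_mul_assoc]
    have e2 : u * (D b * b) * v = (d : ℂ) • (u * D b * v) := by
      rw [mul_assoc, mul_assoc, hv, mul_smul_comm, mul_smul_comm, mul_assoc]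
    rw [defect, mul_sub, mul_sub, sub_mul, sub_mul, e1, e2]
    rw [mul_sub, sub_mul, mul_smul_comm, smul_mul_assoc, add_smul] at key
    rw [← key]
    abel
  · rw [IsSelfAdjoint]
    simp [hb.star_eq, star_smul]
  · rw [mul_add, mul_sub, ← mul_assoc, hu, smul_mul_assoc, hu, mul_smul_comm, hu, mul_smul_comm,
      mul_one]
    module
  · rw [add_mul, sub_mul, mul_assoc, hv, mul_smul_comm, hv, smul_mul_assoc, hv, smul_mul_assoc,
      one_mul]
    module

omit [Nontrivial B] in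
theorem norm_defect_sub (D : B →L[ℂ] B) (h k : B) (hk : ‖k‖ ≤ 1) :
    ‖defect D h - defect D (h + k)‖ ≤ 3 * ‖D‖ * (2 * ‖h‖ + 1) := by
  have e : defect D h - defect D (h + k) = -(D (h * k) + D (k * h) + D (k * k))
      + (h * D k + k * D h + k * D k) + (D k * h + D h * k + D k * k) := by
    simp only [defect, mul_add, add_mul, map_add]
    abel
  have hD := D.le_opNorm
  have hD0 := norm_nonneg D
  have hh := norm_nonneg h
  have a1 : ‖D (h * k)‖ ≤ ‖D‖ * ‖h‖ := (hD _).trans (by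
    gcongr; exact (norm_mul_le _ _).trans (by nlinarith))
  have a2 : ‖D (k * h)‖ ≤ ‖D‖ * ‖h‖ := (hD _).trans (by
    gcongr; exact (norm_mul_le _ _).trans (by nlinarith))
  have a3 : ‖D (k * k)‖ ≤ ‖D‖ * 1 := (hD _).trans (by
    gcongr; exact (norm_mul_le _ _).trans (by nlinarith [norm_nonneg k]))
  have dk : ‖D k‖ ≤ ‖D‖ := (hD _).trans (by nlinarith)
  have dh : ‖D h‖ ≤ ‖D‖ * ‖h‖ := hD _
  have b1 : ‖h * D k‖ ≤ ‖D‖ * ‖h‖ := (norm_mul_le _ _).trans (by nlinarith)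
  have b2 : ‖k * D h‖ ≤ ‖D‖ * ‖h‖ := (norm_mul_le _ _).trans (by nlinarith [norm_nonneg (D h)])
  have b3 : ‖k * D k‖ ≤ ‖D‖ := (norm_mul_le _ _).trans (by nlinarith [norm_nonneg (D k)])
  have c1 : ‖D k * h‖ ≤ ‖D‖ * ‖h‖ := (norm_mul_le _ _).trans (by nlinarith)
  have c2 : ‖D h * k‖ ≤ ‖D‖ * ‖h‖ := (norm_mul_le _ _).trans (by nlinarith [norm_nonneg (D h)])
  have c3 : ‖D k * k‖ ≤ ‖D‖ := (norm_mul_le _ _).trans (by nlinarith [norm_nonneg (D k)])
  rw [e]
  refine (norm_add₃_le).trans ?_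
  rw [norm_neg]
  have s1 := norm_add₃_le (a := D (h * k)) (b := D (k * h)) (c := D (k * k))
  have s2 := norm_add₃_le (a := h * D k) (b := k * D h) (c := k * D k)
  have s3 := norm_add₃_le (a := D k * h) (b := D h * k) (c := D k * k)
  nlinarith

omit [Nontrivial B] in
theorem norm_sum_conj_le (χ : ℕ → B) (hsa : ∀ s ∈ range 9, IsSelfAdjoint (χ s))
    (hn : ∀ s ∈ range 9, ‖χ s‖ ≤ 1)
    (ho : ∀ s ∈ range 9, ∀ t ∈ range 9, s ≠ t → χ s * χ t = 0) (E : B) :
    ‖∑ s ∈ range 9, χ s * E * χ s‖ ≤ 3 * ‖E‖ := by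
  have hx : ∀ s ∈ range 9, ‖χ s * E * χ s‖ ≤ ‖E‖ := by
    intro s hs
    have := hn s hs
    calc _ ≤ ‖χ s‖ * ‖E‖ * ‖χ s‖ :=
          (norm_mul_le _ _).trans (by gcongr; exact norm_mul_le _ _)
      _ ≤ 1 * ‖E‖ * 1 := by gcongr
      _ = _ := by ring
  have h1 : star (∑ s ∈ range 9, χ s * E * χ s) * (∑ s ∈ range 9, χ s * E * χ s)
      = ∑ s ∈ range 9, star (χ s * E * χ s) * (χ s * E * χ s) := by
    rw [star_sum, sum_mul_sum]
    refine sum_congr rfl fun s hs => sum_eq_single_of_mem s hs fun t ht hne => ?_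
    rw [star_mul, star_mul, (hsa s hs).star_eq]
    have : χ s * (star E * χ s) * (χ t * E * χ t) = χ s * star E * (χ s * χ t) * E * χ t := by
      noncomm_ring
    rw [this, ho s hs t ht hne.symm]
    simp
  have h2 : ‖∑ s ∈ range 9, χ s * E * χ s‖ ^ 2 ≤ (3 * ‖E‖) ^ 2 := by
    rw [sq, ← CStarRing.norm_star_mul_self, h1]
    refine (norm_sum_le _ _).trans ?_
    calc ∑ s ∈ range 9, ‖star (χ s * E * χ s) * (χ s * E * χ s)‖
        ≤ ∑ _s ∈ range 9, ‖E‖ * ‖E‖ := sum_le_sum fun s hs => by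
          rw [CStarRing.norm_star_mul_self]
          exact mul_le_mul (hx s hs) (hx s hs) (norm_nonneg _) (norm_nonneg _)
      _ = _ := by simp; ring
  exact (pow_le_pow_iff_left₀ (norm_nonneg _) (by positivity) two_ne_zero).1 h2

theorem norm_defect_le {D : B →L[ℂ] B} (h1 : D 1 = 0)
    (hz : ∀ b u v : B, IsSelfAdjoint b → u * b = 0 → b * v = 0 → u * D b * v = 0)
    {h : B} (hh : IsSelfAdjoint h) : ‖defect D h‖ ≤ 9 * ‖D‖ * (2 * ‖h‖ + 1) := by
  let Φ : C(spectrum ℝ h, ℝ) →⋆ₐ[ℝ] B := cfcHom hh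
  have hΦn : ∀ f : C(spectrum ℝ h, ℝ), (∀ x, |f x| ≤ 1) → ‖Φ f‖ ≤ 1 := fun f hf => by
    rw [norm_cfcHom h f hh]
    exact (ContinuousMap.norm_le _ zero_le_one).2 hf
  have hΦs : ∀ f, IsSelfAdjoint (Φ f) := fun f => cfcHom_predicate hh f
  let X : C(spectrum ℝ h, ℝ) := (ContinuousMap.id ℝ).restrict (spectrum ℝ h)
  have hX : Φ X = h := cfcHom_id hh
  let κ : ℕ → C(spectrum ℝ h, ℝ) := fun s => if hs : s < 9 then
    ⟨fun x => kap s (Int.fract x.1), (continuous_kap hs).comp continuous_subtype_val⟩ else 0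
  let χ : ℕ → C(spectrum ℝ h, ℝ) := fun s => if hs : s < 9 then
    ⟨fun x => bum s (Int.fract x.1), (continuous_bum hs).comp continuous_subtype_val⟩ else 0
  have hκ : ∀ s < 9, ∀ x, κ s x = kap s (Int.fract x.1) := fun s hs x => by simp [κ, hs]
  have hχ : ∀ s < 9, ∀ x, χ s x = bum s (Int.fract x.1) := fun s hs x => by simp [χ, hs]
  let f : ℕ → ℤ → C(spectrum ℝ h, ℝ) := fun s i =>
    (1 - χ s) * ⟨fun x => tent ((X + κ s) x - i), continuous_tent.comp (by fun_prop)⟩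
  obtain ⟨M, hM⟩ := exists_nat_ge (‖h‖ + 1)
  have hf1 : ∀ s < 9, ∀ i : ℤ, f s i * (X + κ s) = (i : ℝ) • f s i := by
    intro s hs i
    ext x
    have := piece_mul s x.1 i
    simpa [f, hκ s hs, hχ s hs, X] using this
  have hf2 : ∀ s < 9, ∑ i ∈ Icc (-(M : ℤ)) M, f s i = 1 - χ s := by
    intro s hs
    ext x
    have hx : |x.1| + 1 ≤ M := by
      have := spectrum.norm_le_norm_of_mem x.2
      rw [Real.norm_eq_abs] at this
      linarith
    have := sum_piece s x.1 M hx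
    simpa [f, hκ s hs, hχ s hs, X] using this
  have hzero : ∀ s < 9, (1 - Φ (χ s)) * defect D (h + Φ (κ s)) * (1 - Φ (χ s)) = 0 := by
    intro s hs
    have e1 : 1 - Φ (χ s) = ∑ i ∈ Icc (-(M : ℤ)) M, Φ (f s i) := by
      rw [← map_sum, hf2 s hs, map_sub, map_one]
    have e2 : h + Φ (κ s) = Φ (X + κ s) := by rw [map_add, hX]
    rw [e1, e2, sum_mul, sum_mul]
    refine sum_eq_zero fun i _ => ?_
    rw [mul_sum]
    refine sum_eq_zero fun j _ => ?_
    refine two_point h1 hz (hΦs _) (c := i) (d := j) ?_ ?_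
    · rw [← map_mul, hf1 s hs, map_smul, Complex.coe_smul]
    · rw [← map_mul, mul_comm, hf1 s hs, map_smul, Complex.coe_smul]
  set E := defect D h with hE
  set T := 3 * ‖D‖ * (2 * ‖h‖ + 1) with hT
  have hp : ∀ s < 9, ‖1 - Φ (χ s)‖ ≤ 1 := by
    intro s hs
    rw [← map_one Φ, ← map_sub]
    refine hΦn _ fun x => ?_
    simp only [ContinuousMap.sub_apply, ContinuousMap.one_apply, hχ s hs]
    rw [abs_le]
    constructor <;> linarith [bum_nonneg s (Int.fract x.1), bum_le_one s (Int.fract x.1)]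
  have hb : ∀ s ∈ range 9, ‖(1 - Φ (χ s)) * E * (1 - Φ (χ s))‖ ≤ T := by
    intro s hs
    rw [mem_range] at hs
    have e : (1 - Φ (χ s)) * E * (1 - Φ (χ s))
        = (1 - Φ (χ s)) * (E - defect D (h + Φ (κ s))) * (1 - Φ (χ s)) := by
      rw [mul_sub (1 - Φ (χ s)) E, sub_mul ((1 - Φ (χ s)) * E), hzero s hs, sub_zero]
    have h2 := norm_defect_sub D h (Φ (κ s)) (hΦn _ fun x => by
      rw [hκ s hs]; exact abs_kap_le s x.1)
    have h3 := hp s hs
    rw [e]
    calc _ ≤ ‖1 - Φ (χ s)‖ * ‖E - defect D (h + Φ (κ s))‖ * ‖1 - Φ (χ s)‖ :=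
          (norm_mul_le _ _).trans (by gcongr; exact norm_mul_le _ _)
      _ ≤ 1 * T * 1 := by gcongr
      _ = T := by ring
  have hsum : ‖∑ s ∈ range 9, (1 - Φ (χ s)) * E * (1 - Φ (χ s))‖ ≤ 9 * T := by
    refine (norm_sum_le _ _).trans ((sum_le_sum hb).trans ?_)
    simp
  have hS : ‖∑ s ∈ range 9, Φ (χ s)‖ ≤ 1 := by
    rw [← map_sum]
    refine hΦn _ fun x => ?_
    rw [ContinuousMap.sum_apply, sum_congr rfl fun s hs => hχ s (mem_range.1 hs) x]
    exact sum_bum_le _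
  have hconj := norm_sum_conj_le (fun s => Φ (χ s)) (fun s _ => hΦs _)
    (fun s hs => hΦn _ fun x => by
      rw [hχ s (mem_range.1 hs), abs_of_nonneg (bum_nonneg _ _)]; exact bum_le_one _ _)
    (fun s hs t ht hne => by
      rw [← map_mul, ← map_zero Φ]
      congr 1
      ext x
      simp only [ContinuousMap.mul_apply, hχ s (mem_range.1 hs), hχ t (mem_range.1 ht)]
      exact bum_mul_bum hne _) E
  have e : (9 : ℂ) • E = ∑ s ∈ range 9, (1 - Φ (χ s)) * E * (1 - Φ (χ s))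
      + ((∑ s ∈ range 9, Φ (χ s)) * E + E * (∑ s ∈ range 9, Φ (χ s)))
      - ∑ s ∈ range 9, Φ (χ s) * E * Φ (χ s) := by
    rw [sum_mul, mul_sum, ← sum_add_distrib, ← sum_add_distrib, ← sum_sub_distrib,
      sum_congr rfl (g := fun _ => E) (fun s _ => by noncomm_ring)]
    simp only [sum_const, card_range]
    rw [← Nat.cast_smul_eq_nsmul ℂ]
    norm_num
  have hn : 9 * ‖E‖ ≤ 9 * T + (‖E‖ + ‖E‖) + 3 * ‖E‖ := by
    have h9 : ‖(9 : ℂ) • E‖ = 9 * ‖E‖ := by rw [norm_smul]; simp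
    rw [← h9, e]
    refine (norm_sub_le _ _).trans (add_le_add ((norm_add_le _ _).trans
      (add_le_add hsum ((norm_add_le _ _).trans (add_le_add ?_ ?_)))) hconj)
    · exact (norm_mul_le _ _).trans (by nlinarith [norm_nonneg E])
    · exact (norm_mul_le _ _).trans (by nlinarith [norm_nonneg E])
  have hT0 : 0 ≤ T := by positivity
  nlinarith

theorem defect_eq_zero {D : B →L[ℂ] B} (h1 : D 1 = 0)
    (hz : ∀ b u v : B, IsSelfAdjoint b → u * b = 0 → b * v = 0 → u * D b * v = 0)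
    {h : B} (hh : IsSelfAdjoint h) : defect D h = 0 := by
  rw [← norm_le_zero_iff]
  refine le_of_forall_pos_le_add fun ε hε => ?_
  set C := 9 * ‖D‖ * (2 * ‖h‖ + 1) with hC
  have hC0 : 0 ≤ C := by positivity
  set t : ℝ := C / ε + 1 with ht
  have ht1 : 1 ≤ t := by rw [ht]; have := div_nonneg hC0 hε.le; linarith
  have hsa : IsSelfAdjoint ((t : ℂ) • h) := by
    rw [IsSelfAdjoint, star_smul, hh.star_eq]; simp
  have h2 := norm_defect_le h1 hz hsa
  have e : defect D ((t : ℂ) • h) = ((t : ℂ) * t) • defect D h := by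
    simp only [defect, smul_mul_assoc, mul_smul_comm, map_smul, smul_smul, smul_sub]
  rw [e, norm_smul, norm_smul, norm_mul, Complex.norm_real,
    Real.norm_of_nonneg (by linarith)] at h2
  have h3 : t * t * ‖defect D h‖ ≤ t * C := by
    refine h2.trans ?_
    rw [hC]
    nlinarith [norm_nonneg D, mul_nonneg (norm_nonneg D) (sub_nonneg.2 ht1)]
  have h4 : t * ‖defect D h‖ ≤ C := by
    rw [mul_assoc] at h3
    exact le_of_mul_le_mul_left h3 (by linarith)
  have h5 : C ≤ t * ε := by rw [ht, add_mul, div_mul_cancel₀ _ hε.ne']; linarith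
  rw [zero_add]
  exact le_of_mul_le_mul_left (h4.trans h5) (by linarith)

end Pool.Agent.Lib.MP_92e372_an.Gen
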