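import Mathlib

namespace Pool.Agent.Lib.MP_92e372_an.Gen

open Filter Topology Metric

variable {B : Type*} [CStarAlgebra B] [Nontrivial B]

/-- If the spectrum lies in the open disc of radius `M`, some power is small. -/
theorem exists_pow_lt (a : B) {M : ℝ} (hM : 0 < M) (h : ∀ μ ∈ spectrum ℂ a, ‖μ‖ < M) :
    ∃ n : ℕ, 0 < n ∧ ‖a ^ n‖ < M ^ n := by
  have h1 : spectralRadius ℂ a < ENNReal.ofReal M := by
    have := spectrum.spectralRadius_lt_of_forall_lt a (r := M.toNNReal) (fun z hz => by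
      rw [← NNReal.coe_lt_coe, coe_nnnorm, Real.coe_toNNReal _ hM.le]; exact h z hz)
    exact this
  have h2 := (spectrum.pow_norm_pow_one_div_tendsto_nhds_spectralRadius a).eventually
    (gt_mem_nhds h1)
  obtain ⟨n, hn, hn0⟩ := (h2.and (eventually_gt_atTop 0)).exists
  refine ⟨n, hn0, ?_⟩
  rw [ENNReal.ofReal_lt_ofReal_iff hM] at hn
  have h3 : (‖a ^ n‖ ^ (1 / n : ℝ)) ^ n < M ^ n :=
    pow_lt_pow_left₀ hn (by positivity) hn0.ne'
  rwa [one_div, Real.rpow_inv_natCast_pow (norm_nonneg _) hn0.ne'] at h3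

/-- A uniform bound for powers along a compact family. -/
theorem pow_bound_on_compact {K : Set ℂ} (hK : IsCompact K) {g : ℂ → B} (hg : Continuous g)
    {M : ℝ} (hM : 0 < M) (h : ∀ z ∈ K, ∀ μ ∈ spectrum ℂ (g z), ‖μ‖ < M) :
    ∃ C : ℝ, 1 ≤ C ∧ ∀ z ∈ K, ∀ j : ℕ, ‖g z ^ j‖ ≤ C * M ^ j := by
  let U : ℕ → Set ℂ := fun n => {z | ‖g z ^ (n + 1)‖ < M ^ (n + 1)}
  have hU : ∀ n, IsOpen (U n) := fun n => isOpen_lt (by fun_prop) continuous_const
  have hcov : K ⊆ ⋃ n, U n := by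
    intro z hz
    obtain ⟨n, hn0, hn⟩ := exists_pow_lt (g z) hM (h z hz)
    refine Set.mem_iUnion.2 ⟨n - 1, ?_⟩
    show ‖g z ^ (n - 1 + 1)‖ < M ^ (n - 1 + 1)
    rwa [Nat.sub_add_cancel hn0]
  obtain ⟨t, ht⟩ := hK.elim_finite_subcover U hU hcov
  obtain ⟨G, hG⟩ := hK.exists_bound_of_continuousOn hg.continuousOn
  let L : ℝ := max (G / M) 1
  have hL1 : 1 ≤ L := le_max_right _ _
  have hGL : G ≤ L * M := by
    have : G / M ≤ L := le_max_left _ _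
    rwa [div_le_iff₀ hM] at this
  let N : ℕ := t.sup id
  refine ⟨L ^ N, one_le_pow₀ hL1, fun z hz j => ?_⟩
  obtain ⟨n, hnt, hn⟩ : ∃ n ∈ t, z ∈ U n := by simpa using ht hz
  have hnN : n ≤ N := Finset.le_sup (f := id) hnt
  have hn' : ‖g z ^ (n + 1)‖ ≤ M ^ (n + 1) := le_of_lt hn
  have hj : j = (n + 1) * (j / (n + 1)) + j % (n + 1) := (Nat.div_add_mod j (n + 1)).symm
  have hr : j % (n + 1) ≤ N := (Nat.lt_succ_iff.1 (Nat.mod_lt _ (Nat.succ_pos n))).trans hnN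
  set q := j / (n + 1)
  set r := j % (n + 1)
  rw [hj, pow_add, pow_mul, pow_add M, pow_mul M]
  calc ‖(g z ^ (n + 1)) ^ q * g z ^ r‖ ≤ ‖g z ^ (n + 1)‖ ^ q * ‖g z‖ ^ r :=
        (norm_mul_le _ _).trans (mul_le_mul (norm_pow_le _ _) (norm_pow_le _ _)
          (norm_nonneg _) (by positivity))
    _ ≤ (M ^ (n + 1)) ^ q * (L * M) ^ r := by
        gcongr
        exact (hG z hz).trans hGL
    _ ≤ (M ^ (n + 1)) ^ q * (L ^ N * M ^ r) := by
        rw [mul_pow]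
        gcongr
    _ = L ^ N * ((M ^ (n + 1)) ^ q * M ^ r) := by ring

theorem le_of_pow_le_mul_pow {X Y C : ℝ} (hY : 0 < Y) (h : ∀ n : ℕ, X ^ n ≤ C * Y ^ n) :
    X ≤ Y := by
  by_contra hlt
  rw [not_le] at hlt
  have h1 : 1 < X / Y := (one_lt_div hY).2 hlt
  obtain ⟨n, hn⟩ := ((tendsto_pow_atTop_atTop_of_one_lt h1).eventually (eventually_gt_atTop C)).exists
  rw [div_pow, lt_div_iff₀ (by positivity)] at hn
  exact absurd (h n) (not_le.2 hn)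

/-- A three circles inequality for the spectral radius. -/
theorem three_circles {g : ℂ → B} (hg : Differentiable ℂ g) {r R N M : ℝ} (hr : 0 < r)
    (hN0 : 0 < N) (hM0 : 0 < M) {z0 : ℂ} (h1 : r ≤ ‖z0‖) (h2 : ‖z0‖ ≤ R)
    (hN : ∀ z : ℂ, ‖z‖ = r → ‖g z‖ ≤ N)
    (hM : ∀ z : ℂ, ‖z‖ = R → ∀ μ ∈ spectrum ℂ (g z), ‖μ‖ < M)
    (m : ℕ) (hR : M ^ m / R ≤ N ^ m / r) {μ : ℂ} (hμ : μ ∈ spectrum ℂ (g z0)) :
    ‖μ‖ ^ m / ‖z0‖ ≤ N ^ m / r := by
  have hR0 : 0 < R := hr.trans_le (h1.trans h2)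
  obtain ⟨C, hC1, hC⟩ := pow_bound_on_compact (isCompact_sphere (0 : ℂ) R) hg.continuous hM0
    (fun z hz => hM z (by simpa using hz))
  refine le_of_pow_le_mul_pow (C := C) (by positivity) fun n => ?_
  let U : Set ℂ := closedBall 0 R \ ball 0 r
  have hUc : IsClosed U := isClosed_closedBall.sdiff isOpen_ball
  have hU0 : ∀ z ∈ U, z ≠ 0 := by
    rintro z hz rfl
    exact hz.2 (mem_ball_self hr)
  let G : ℂ → B := fun z => (z⁻¹ ^ n) • g z ^ (m * n)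
  have hGd : DifferentiableOn ℂ G U := fun z hz =>
    (((differentiableAt_inv (hU0 z hz)).pow n).smul ((hg z).pow _)).differentiableWithinAt
  have hGd' : DiffContOnCl ℂ G U := DifferentiableOn.diffContOnCl (by rwa [hUc.closure_eq])
  have hbd : ∀ z ∈ frontier U, ‖G z‖ ≤ C * (N ^ m / r) ^ n := by
    intro z hz
    have hzU : z ∈ U := hUc.frontier_subset hz
    have hz1 : ‖z‖ ≤ R := by simpa using hzU.1
    have hz2 : r ≤ ‖z‖ := by simpa using hzU.2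
    have hnorm : ‖G z‖ = ‖z‖⁻¹ ^ n * ‖g z ^ (m * n)‖ := by
      simp only [G, norm_smul, norm_pow, norm_inv]
    rw [hnorm]
    rcases hz2.eq_or_lt with e | hz2
    · calc ‖z‖⁻¹ ^ n * ‖g z ^ (m * n)‖ ≤ ‖z‖⁻¹ ^ n * N ^ (m * n) := by
            gcongr
            exact (norm_pow_le _ _).trans (pow_le_pow_left₀ (norm_nonneg _) (hN z e.symm) _)
        _ = 1 * (N ^ m / r) ^ n := by rw [← e, pow_mul, div_eq_mul_inv, mul_pow]; ring
        _ ≤ C * (N ^ m / r) ^ n := by gcongr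
    · rcases hz1.eq_or_lt with e | hz1
      · calc ‖z‖⁻¹ ^ n * ‖g z ^ (m * n)‖ ≤ ‖z‖⁻¹ ^ n * (C * M ^ (m * n)) := by
              gcongr
              exact hC z (by simpa using e) _
          _ = C * (M ^ m / R) ^ n := by rw [e, pow_mul, div_eq_mul_inv, mul_pow]; ring
          _ ≤ C * (N ^ m / r) ^ n := by gcongr
      · exfalso
        have hopen : IsOpen {w : ℂ | r < ‖w‖ ∧ ‖w‖ < R} :=
          (isOpen_lt continuous_const continuous_norm).inter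
            (isOpen_lt continuous_norm continuous_const)
        have hsub : {w : ℂ | r < ‖w‖ ∧ ‖w‖ < R} ⊆ U := fun w hw =>
          ⟨by simpa using hw.2.le, by simpa using hw.1.le⟩
        exact hz.2 (interior_maximal hsub hopen ⟨hz2, hz1⟩)
  have hz0 : z0 ∈ closure U := subset_closure ⟨by simpa using h2, by simpa using h1⟩
  have hmax := Complex.norm_le_of_forall_mem_frontier_norm_le
    (isBounded_closedBall.subset Set.sdiff_subset) hGd' hbd hz0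
  refine le_trans ?_ hmax
  have hp : ‖μ‖ ^ (m * n) ≤ ‖g z0 ^ (m * n)‖ := by
    rw [← norm_pow]
    exact spectrum.norm_le_norm_of_mem (spectrum.pow_mem_pow _ _ hμ)
  simp only [G, norm_smul, norm_pow, norm_inv]
  calc (‖μ‖ ^ m / ‖z0‖) ^ n = ‖z0‖⁻¹ ^ n * ‖μ‖ ^ (m * n) := by
        rw [pow_mul, div_eq_mul_inv, mul_pow]; ring
    _ ≤ _ := by gcongr

/-- The limiting form of the three circles inequality. -/
theorem norm_le_of_families {μ z0 : ℂ} (hz0 : z0 ≠ 0) {N0 M : ℝ} (hN0 : 0 ≤ N0) (hM0 : 0 < M)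
    (h : ∀ ε > 0, ∃ r, 0 < r ∧ r ≤ ‖z0‖ ∧ ∀ R, ‖z0‖ ≤ R → ∃ g : ℂ → B, Differentiable ℂ g ∧
      μ ∈ spectrum ℂ (g z0) ∧ (∀ z : ℂ, ‖z‖ = r → ‖g z‖ ≤ N0 + ε) ∧
      ∀ z : ℂ, ‖z‖ = R → ∀ ν ∈ spectrum ℂ (g z), ‖ν‖ < M) : ‖μ‖ ≤ N0 := by
  refine le_of_forall_pos_le_add fun ε hε => ?_
  obtain ⟨r, hr, hr', h⟩ := h ε hε
  have hN : 0 < N0 + ε := by positivity
  have hz : 0 < ‖z0‖ := norm_pos_iff.2 hz0
  refine le_of_pow_le_mul_pow (C := ‖z0‖ / r) hN fun m => ?_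
  let R : ℝ := max ‖z0‖ (M ^ m * r / (N0 + ε) ^ m)
  have hR0 : 0 < R := hz.trans_le (le_max_left _ _)
  obtain ⟨g, hg, hμ, h1, h2⟩ := h R (le_max_left _ _)
  have hR : M ^ m / R ≤ (N0 + ε) ^ m / r := by
    have : M ^ m * r / (N0 + ε) ^ m ≤ R := le_max_right _ _
    rw [div_le_iff₀ (by positivity)] at this
    rw [div_le_div_iff₀ hR0 hr]
    linarith
  have := three_circles hg hr hN hM0 hr' (le_max_left _ _) h1 h2 m hR hμ
  rw [div_le_iff₀ hz] at this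
  calc ‖μ‖ ^ m ≤ (N0 + ε) ^ m / r * ‖z0‖ := this
    _ = _ := by ring

/-- Liouville type theorem for the spectral radius. -/
theorem spectral_liouville {g : ℂ → B} (hg : Differentiable ℂ g) {M : ℝ}
    (hM : ∀ z, ∀ ν ∈ spectrum ℂ (g z), ‖ν‖ ≤ M) {z0 μ : ℂ} (hμ : μ ∈ spectrum ℂ (g z0)) :
    ‖μ‖ ≤ ‖g 0‖ := by
  rcases eq_or_ne z0 0 with rfl | hz0
  · exact spectrum.norm_le_norm_of_mem hμ
  have hM0 : 0 ≤ M := (norm_nonneg _).trans (hM z0 μ hμ)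
  refine norm_le_of_families (B := B) hz0 (norm_nonneg _) (M := M + 1) (by linarith)
    fun ε hε => ?_
  obtain ⟨δ, hδ, hδ'⟩ := Metric.continuousAt_iff.1 (hg 0).continuousAt ε hε
  refine ⟨min (δ / 2) ‖z0‖, lt_min (by linarith) (norm_pos_iff.2 hz0), min_le_right _ _,
    fun R _ => ⟨g, hg, hμ, fun z hz => ?_, fun z _ ν hν => by linarith [hM z ν hν]⟩⟩
  have h1 : dist z 0 < δ := by
    rw [dist_zero_right, hz]
    exact (min_le_left _ _).trans_lt (by linarith)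
  have h2 := hδ' h1
  rw [dist_eq_norm] at h2
  linarith [norm_le_insert' (g z) (g 0), norm_sub_norm_le (g z) (g 0)]

end Pool.Agent.Lib.MP_92e372_an.Gen
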